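import Pool.Agent.R166.Spike.Main

set_option autoImplicit false

/-!
# The equality case: all extreme points in an orthant or on the axes
-/

namespace Pool.Agent.R166.Spike

open Set Topology Module
open scoped InnerProductSpace
open Pool.Agent.TH438.Hull

/-- coordinates for functionals -/
theorem exists_equiv' {d : ℕ} (u : Fin d → Eu d) (hu : LinearIndependent ℝ u) :
    ∃ Φ : Eu d ≃L[ℝ] (Fin d → ℝ), ∀ v i, Φ v i = ⟪v, u i⟫_ℝ := by
  let φ : Eu d →ₗ[ℝ] (Fin d → ℝ) :=
    { toFun := fun x => fun i => ⟪x, u i⟫_ℝ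
      map_add' := fun x y => by
        ext i; simp [inner_add_left]
      map_smul' := fun a x => by
        ext i; simp [real_inner_smul_left] }
  have hinj : Function.Injective φ := by
    rw [← LinearMap.ker_eq_bot, LinearMap.ker_eq_bot']
    intro x hx
    have h1 : ∀ i, ⟪x, u i⟫_ℝ = 0 := fun i => congrFun hx i
    have h2 : x ∈ Submodule.span ℝ (Set.range u) := by
      rw [hu.span_eq_top_of_card_eq_finrank' (by simp)]
      trivial
    have h3 : ∀ y ∈ Submodule.span ℝ (Set.range u), ⟪x, y⟫_ℝ = 0 := by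
      intro y hy
      induction hy using Submodule.span_induction with
      | mem y hy =>
        obtain ⟨i, rfl⟩ := hy
        exact h1 i
      | zero => exact inner_zero_right _
      | add y z _ _ h4 h5 => rw [inner_add_right, h4, h5, add_zero]
      | smul a y _ h4 => rw [real_inner_smul_right, h4, mul_zero]
    exact inner_self_eq_zero.1 (h3 x h2)
  let e : Eu d ≃ₗ[ℝ] (Fin d → ℝ) := LinearEquiv.ofInjectiveOfFinrankEq φ hinj (by simp)
  exact ⟨e.toContinuousLinearEquiv, fun v i => rfl⟩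

/-- the functionals `⟪·, u i⟫` as a basis of the dual space -/
theorem exists_basis {d : ℕ} (hd : 1 ≤ d) (u : Fin d → Eu d) (hu : LinearIndependent ℝ u) :
    ∃ b : Basis (Fin d) ℝ (Dual ℝ (Eu d)), ∀ i x, b i x = ⟪x, u i⟫_ℝ := by
  have : Nonempty (Fin d) := ⟨⟨0, hd⟩⟩
  let f : Fin d → Dual ℝ (Eu d) := fun i =>
    { toFun := fun x => ⟪x, u i⟫_ℝ
      map_add' := fun x y => inner_add_left _ _ _
      map_smul' := fun a x => by simp [real_inner_smul_left] }
  have hf : ∀ i x, f i x = ⟪x, u i⟫_ℝ := fun _ _ => rfl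
  have hli : LinearIndependent ℝ f := by
    rw [Fintype.linearIndependent_iff]
    intro g hg
    have h1 : ∑ i, g i • u i = 0 := by
      have h2 : ∀ z : Eu d, ⟪z, ∑ i, g i • u i⟫_ℝ = 0 := by
        intro z
        rw [inner_sum]
        simp only [real_inner_smul_right, ← hf]
        have h3 := congrArg (fun F : Dual ℝ (Eu d) => F z) hg
        simpa [LinearMap.sum_apply] using h3
      exact inner_self_eq_zero.1 (h2 _)
    exact Fintype.linearIndependent_iff.1 hu g h1
  refine ⟨basisOfLinearIndependentOfCardEqFinrank hli (by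
    rw [Subspace.dual_finrank_eq]
    simp), fun i x => ?_⟩
  rw [coe_basisOfLinearIndependentOfCardEqFinrank]
  exact hf i x

/-- `2 ^ d - 1` translates of the interior suffice for the polar body, or `K` is a cross-body. -/
theorem eq_case {d : ℕ} (hd : 1 ≤ d) {K : Set (Eu d)} (hK : Convex ℝ K)
    (hKc : IsCompact K) {o : Eu d} (ho : o ∈ interior K) (u : Fin d → Eu d)
    (hu : LinearIndependent ℝ u) (W : Submodule ℝ (Eu d))
    (hW : IsCompl (Submodule.span ℝ (Set.range u)) W) (hext : ExtIn K o u W) :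
    (∃ T : Finset (Eu d), T.card ≤ 2 ^ d - 1 ∧
      Pol K o ⊆ ⋃ t ∈ T, (fun x => t + x) '' interior (Pol K o)) ∨
    ∃ (v : Fin d → Eu d) (t : Fin d → ℝ), LinearIndependent ℝ v ∧ (∀ i, 0 < t i) ∧
      K = convexHull ℝ (Set.range (fun i => o + v i) ∪ Set.range (fun i => o - t i • v i)) := by
  classical
  have hspan : Submodule.span ℝ (Set.range u) = ⊤ := by
    have : Nonempty (Fin d) := ⟨⟨0, hd⟩⟩
    exact hu.span_eq_top_of_card_eq_finrank' (by simp)
  have hW0 : ∀ y ∈ W, y = 0 := by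
    intro y hy
    have h1 : y ∈ Submodule.span ℝ (Set.range u) ⊓ W := by
      rw [hspan]
      exact ⟨trivial, hy⟩
    rw [hW.inf_eq_bot] at h1
    exact (Submodule.mem_bot ℝ).1 h1
  obtain ⟨Φ, hΦ⟩ := exists_equiv' u hu
  obtain ⟨L, hL1, hL2⟩ := exists_low hKc ho u
  set P := Pol K o with hP
  set Ψ : (Fin d → ℝ) → Eu d := fun p => Φ.symm (p + L) with hΨ
  have hΨ1 : ∀ p i, ⟪Ψ p, u i⟫_ℝ = p i + L i := by
    intro p i
    rw [← hΦ, hΨ]
    simp
  let H : (Fin d → ℝ) ≃ₜ Eu d := (Homeomorph.addRight L).trans Φ.symm.toHomeomorph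
  have hH : ∀ p, H p = Ψ p := fun p => rfl
  set Q : Set (Fin d → ℝ) := H ⁻¹' P with hQ
  have hQi : interior Q = H ⁻¹' interior P := (H.preimage_interior P).symm
  have hQv : Convex ℝ Q := by
    have h1 : Convex ℝ P := Pol.convex K o
    intro a ha b hb p q hp hq hpq
    show H (p • a + q • b) ∈ P
    have e : H (p • a + q • b) = p • H a + q • H b := by
      rw [hH, hH, hH]
      simp only [hΨ]
      rw [← map_smul, ← map_smul, ← map_add]
      congr 1
      rw [smul_add, smul_add, add_add_add_comm, ← add_smul, hpq, one_smul]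
    rw [e]
    exact h1 ha hb hp hq hpq
  have hQc : IsCompact Q := by
    have : IsCompact P := Pol.isCompact ho
    rw [hQ]
    exact H.isCompact_preimage.2 this
  have hQne : (interior Q).Nonempty := by
    rw [hQi]
    exact ⟨H.symm 0, by
      show H (H.symm 0) ∈ interior P
      rw [H.apply_symm_apply]
      exact Pol.zero_mem_interior hKc⟩
  have hpos : ∀ p ∈ Q, ∀ i, 0 ≤ p i := by
    intro p hp i
    have h1 := hL1 _ hp i
    rw [hH, hΨ1] at h1
    linarith
  have hmono : ∀ p ∈ Q, ∀ x' : Fin d → ℝ, (∀ i, 0 ≤ x' i) → (∀ i, x' i ≤ p i) → x' ∈ Q := by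
    intro p hp x' h0 h1
    show H x' ∈ P
    rw [hH]
    refine pol_mono hK hKc u W hext hL2 (v := Ψ p) hp ?_ (fun i => ?_) (fun i => ?_)
    · intro y hy
      rw [hW0 y hy, inner_zero_right, inner_zero_right]
    · rw [hΨ1]
      have := h0 i
      linarith
    · rw [hΨ1, hΨ1]
      have := h1 i
      linarith
  by_cases hbox : ∃ h : Fin d → ℝ, Q = {x | ∀ i, 0 ≤ x i ∧ x i ≤ h i}
  · right
    obtain ⟨h, hbox⟩ := hbox
    obtain ⟨ρ, hρ0, hρ⟩ := Pool.Agent.R753.Corner.exists_rho hQne hpos hmono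
    have hh : ∀ i, 0 < h i := by
      intro i
      rw [hbox] at hρ
      have := (hρ i).2
      simp only at this
      linarith
    obtain ⟨b, hb⟩ := exists_basis hd u hu
    refine Pool.Agent.H2R2.Frac.cross_of_polar d hd K hKc hK o ho b L h hh ?_
    ext v
    have h1 : v ∈ P ↔ H.symm v ∈ Q := by
      rw [hQ, Set.mem_preimage, H.apply_symm_apply]
    have h2 : ∀ i, H.symm v i = ⟪v, u i⟫_ℝ - L i := by
      intro i
      have := hΨ1 (H.symm v) i
      rw [← hH, H.apply_symm_apply] at this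
      linarith
    have h3 : (v ∈ {v : Eu d | ∀ y ∈ K, ⟪v, y - o⟫_ℝ ≤ 1}) ↔ v ∈ P := Iff.rfl
    rw [h3, h1, hbox]
    constructor
    · intro h4 i
      have h5 := h4 i
      rw [h2] at h5
      rw [hb]
      constructor <;> linarith [h5.1, h5.2]
    · intro h4 i
      have h5 := h4 i
      rw [hb] at h5
      rw [h2]
      constructor <;> linarith [h5.1, h5.2]
  · left
    obtain ⟨T, hT, hcov⟩ := (Pool.Agent.R753.Corner.cover hQv hQc hQne hpos hmono).2 hbox
    refine ⟨T.image fun t => Φ.symm t, Finset.card_image_le.trans hT, ?_⟩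
    intro v hv
    have h1 : H.symm v ∈ Q := by
      show H (H.symm v) ∈ P
      rw [H.apply_symm_apply]
      exact hv
    obtain ⟨t, ht, q, hq, hqe⟩ := Set.mem_iUnion₂.1 (hcov h1)
    refine Set.mem_iUnion₂.2 ⟨Φ.symm t, Finset.mem_image_of_mem _ ht, H q, ?_, ?_⟩
    · rw [hQi] at hq
      exact hq
    · have h2 : H (H.symm v) = H (t + q) := by rw [← hqe]
      rw [H.apply_symm_apply, hH] at h2
      simp only [hΨ] at h2
      show Φ.symm t + H q = v
      rw [h2, hH]
      simp only [hΨ]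
      rw [← map_add, add_assoc]

/-- Cross-bodies need `2 ^ d` hyperplanes. -/
theorem not_sep {d : ℕ} (hd : 1 ≤ d) {K : Set (Eu d)} {o : Eu d}
    (h : ∃ (v : Fin d → Eu d) (t : Fin d → ℝ), LinearIndependent ℝ v ∧ (∀ i, 0 < t i) ∧
      K = convexHull ℝ (Set.range (fun i => o + v i) ∪ Set.range (fun i => o - t i • v i))) :
    ¬ SeparatedBy K o (2 ^ d - 1) := by
  classical
  rintro ⟨w, b, hwb⟩
  obtain ⟨v, t, hv, ht, hK⟩ := h
  have hKc : IsCompact K := by
    rw [hK]
    exact ((Set.finite_range _).union (Set.finite_range _)).isCompact_convexHull ℝ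
  have hne : K.Nonempty := by
    rw [hK]
    exact ⟨_, subset_convexHull ℝ _ (Or.inl ⟨⟨0, hd⟩, rfl⟩)⟩
  have h1 := Pool.Agent.H2R2.Frac.cross_lower d K o v t hv ht hK hd
    (Finset.univ.image fun i : Fin (2 ^ d - 1) => (w i, b i)) (fun _ => 1)
    (fun _ _ => zero_le_one) (by
      intro u hu
      obtain ⟨x₀, hx₀, hmax⟩ := hKc.exists_isMaxOn hne (f := fun x => ⟪u, x⟫_ℝ) (by fun_prop)
      obtain ⟨i, hi1, hi2⟩ := hwb u x₀ hu hx₀ (fun y hy => hmax hy)
      have hmem : (w i, b i) ∈ Finset.univ.image fun i : Fin (2 ^ d - 1) => (w i, b i) :=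
        Finset.mem_image_of_mem _ (Finset.mem_univ i)
      refine le_trans ?_ (Finset.single_le_sum (fun h _ => ?_) hmem)
      · rw [Set.indicator_of_mem]
        refine ⟨hi1, fun x hx hx' => hi2 x hx ?_⟩
        exact le_antisymm (hmax hx) (hx' x₀ hx₀)
      · exact Set.indicator_nonneg (fun _ _ => zero_le_one) _)
  rw [Finset.sum_const, nsmul_eq_mul, mul_one] at h1
  have h2 : (Finset.univ.image fun i : Fin (2 ^ d - 1) => (w i, b i)).card ≤ 2 ^ d - 1 :=
    Finset.card_image_le.trans (by simp)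
  have h3 : 2 ^ d ≤ (Finset.univ.image fun i : Fin (2 ^ d - 1) => (w i, b i)).card := by
    exact_mod_cast h1
  have h4 : 0 < 2 ^ d := by positivity
  omega

end Pool.Agent.R166.Spike
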