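import Mathlib
import Pool.Agent.TH438.Hull.Dual
import Pool.Agent.TH438.Hull.Polar
import Pool.Agent.W677.Summand3
import Pool.Agent.W677.Shadow
import Pool.Agent.R753.Mono
import Pool.Agent.R753.Corner
import Pool.Agent.H2R2.Frac.T9
import Pool.Agent.H2R2.Frac.T11

set_option autoImplicit false

/-!
# Bodies whose extreme points are in a half-open wedge or on the axes

The polar body of such a body is, after a translation, a monotone fibration over a lower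
dimensional body.
-/

namespace Pool.Agent.R166.Spike

open Set Topology Module
open scoped InnerProductSpace
open Pool.Agent.TH438.Hull

/-- The Euclidean space `ℝ^d`. -/
abbrev Eu (d : ℕ) : Type := EuclideanSpace ℝ (Fin d)

/-- Some `N` hyperplanes `{x | ⟪w i, x⟫ = b i}` are such that every face of `K` is strictly
separated from `o` by one of them. -/
def SeparatedBy {d : ℕ} (K : Set (Eu d)) (o : Eu d) (N : ℕ) : Prop :=
  ∃ (w : Fin N → Eu d) (b : Fin N → ℝ), ∀ u x₀ : Eu d, u ≠ 0 → x₀ ∈ K →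
    (∀ y ∈ K, ⟪u, y⟫_ℝ ≤ ⟪u, x₀⟫_ℝ) →
      ∃ i, ⟪w i, o⟫_ℝ < b i ∧ ∀ x ∈ K, ⟪u, x⟫_ℝ = ⟪u, x₀⟫_ℝ → b i < ⟪w i, x⟫_ℝ

/-- from coverings of the polar body to separating hyperplanes -/
theorem sep_of_cover {d : ℕ} {K : Set (Eu d)} (hKc : IsCompact K) {o : Eu d}
    (ho : o ∈ interior K) {N : ℕ} (T : Finset (Eu d)) (hT : T.card ≤ N)
    (h2 : Pol K o ⊆ ⋃ t ∈ T, (fun x => t + x) '' interior (Pol K o)) :
    SeparatedBy K o N := by
  classical
  obtain ⟨ε, hε, h3⟩ := sep_of_cov hKc ho T h2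
  refine ⟨fun i => T.toList.getD i 0, fun i => ⟪T.toList.getD i 0, o⟫_ℝ + ε,
    fun u x₀ hu hx₀ hmax => ?_⟩
  obtain ⟨t, ht, _, h4⟩ := h3 u x₀ hu hx₀ hmax
  obtain ⟨i, hi, hit⟩ := List.getElem_of_mem (Finset.mem_toList.2 ht)
  have hiN : i < N := by
    rw [Finset.length_toList] at hi
    omega
  refine ⟨⟨i, hiN⟩, by simp only; linarith, fun x hx hxu => ?_⟩
  have h5 : T.toList.getD i 0 = t := by
    rw [List.getD_eq_getElem _ _ hi, hit]
  simp only [h5]
  exact h4 x hx hxu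

/-- the lower bounds -/
theorem exists_low {d k : ℕ} {K : Set (Eu d)} (hKc : IsCompact K) {o : Eu d}
    (ho : o ∈ interior K) (u : Fin k → Eu d) :
    ∃ L : Fin k → ℝ, (∀ v ∈ Pol K o, ∀ i, L i ≤ ⟪v, u i⟫_ℝ) ∧
      ∀ i, ∃ v ∈ Pol K o, ⟪v, u i⟫_ℝ = L i := by
  have h : ∀ i, ∃ v ∈ Pol K o, ∀ v' ∈ Pol K o, ⟪v, u i⟫_ℝ ≤ ⟪v', u i⟫_ℝ := by
    intro i
    obtain ⟨v, hv, hmin⟩ := (Pol.isCompact ho).exists_isMinOn
      ⟨0, interior_subset (Pol.zero_mem_interior hKc)⟩ (f := fun v => ⟪v, u i⟫_ℝ) (by fun_prop)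
    exact ⟨v, hv, fun v' hv' => hmin hv'⟩
  choose v hv hmin using h
  exact ⟨fun i => ⟪v i, u i⟫_ℝ, fun v' hv' i => hmin i v' hv', fun i => ⟨v i, hv i, rfl⟩⟩

/-- the hypothesis on the extreme points -/
def ExtIn {d k : ℕ} (K : Set (Eu d)) (o : Eu d) (u : Fin k → Eu d) (W : Submodule ℝ (Eu d)) :
    Prop :=
  ∀ x ∈ K.extremePoints ℝ, ∃ (c : Fin k → ℝ) (y : Eu d), y ∈ W ∧ x = o + ∑ i, c i • u i + y ∧
    ((∀ i, 0 ≤ c i) ∨ (y = 0 ∧ ∃ i, ∀ j, j ≠ i → c j = 0))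

/-- The polar body is monotone. -/
theorem pol_mono {d k : ℕ} {K : Set (Eu d)} (hK : Convex ℝ K) (hKc : IsCompact K) {o : Eu d}
    (u : Fin k → Eu d) (W : Submodule ℝ (Eu d)) (hext : ExtIn K o u W)
    {L : Fin k → ℝ} (hL : ∀ i, ∃ v ∈ Pol K o, ⟪v, u i⟫_ℝ = L i)
    {v v' : Eu d} (hv : v ∈ Pol K o) (hW : ∀ y ∈ W, ⟪v', y⟫_ℝ = ⟪v, y⟫_ℝ)
    (hlo : ∀ i, L i ≤ ⟪v', u i⟫_ℝ) (hup : ∀ i, ⟪v', u i⟫_ℝ ≤ ⟪v, u i⟫_ℝ) : v' ∈ Pol K o := by
  have hcl : IsClosed {y : Eu d | ⟪v', y - o⟫_ℝ ≤ 1} :=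
    isClosed_le (by fun_prop) continuous_const
  have hcv : Convex ℝ {y : Eu d | ⟪v', y - o⟫_ℝ ≤ 1} := by
    intro a ha b hb p q hp hq hpq
    have ha' : ⟪v', a - o⟫_ℝ ≤ 1 := ha
    have hb' : ⟪v', b - o⟫_ℝ ≤ 1 := hb
    show ⟪v', p • a + q • b - o⟫_ℝ ≤ 1
    have e : p • a + q • b - o = p • (a - o) + q • (b - o) := by
      rw [smul_sub, smul_sub, sub_add_sub_comm, ← add_smul, hpq, one_smul]
    rw [e, inner_add_right, real_inner_smul_right, real_inner_smul_right]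
    nlinarith
  have hin : ∀ (z : Eu d) (c : Fin k → ℝ) (y : Eu d),
      ⟪z, o + ∑ i, c i • u i + y - o⟫_ℝ = ∑ i, c i * ⟪z, u i⟫_ℝ + ⟪z, y⟫_ℝ := by
    intro z c y
    have e : o + ∑ i, c i • u i + y - o = ∑ i, c i • u i + y := by abel
    rw [e, inner_add_right, inner_sum]
    simp only [real_inner_smul_right]
  have hsub : K.extremePoints ℝ ⊆ {y : Eu d | ⟪v', y - o⟫_ℝ ≤ 1} := by
    intro x hx
    obtain ⟨c, y, hy, hxe, hcase⟩ := hext x hx
    have hxK : x ∈ K := extremePoints_subset hx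
    have key : (∀ i, 0 ≤ c i) → ⟪v', x - o⟫_ℝ ≤ 1 := by
      intro hc
      have h1 := hv x hxK
      rw [hxe, hin] at h1 ⊢
      rw [hW y hy]
      have h2 : ∑ i, c i * ⟪v', u i⟫_ℝ ≤ ∑ i, c i * ⟪v, u i⟫_ℝ :=
        Finset.sum_le_sum fun i _ => mul_le_mul_of_nonneg_left (hup i) (hc i)
      linarith
    show ⟪v', x - o⟫_ℝ ≤ 1
    rcases hcase with hc | ⟨hy0, i, hi⟩
    · exact key hc
    · rcases le_or_gt 0 (c i) with h0 | h0
      · refine key fun j => ?_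
        by_cases hj : j = i
        · rw [hj]; exact h0
        · rw [hi j hj]
      · obtain ⟨z, hz, hzL⟩ := hL i
        have h1 := hz x hxK
        rw [hxe, hin, hy0, inner_zero_right, add_zero, Finset.sum_eq_single i (fun j _ hj => by
          rw [hi j hj, zero_mul]) (fun h => absurd (Finset.mem_univ i) h)] at h1 ⊢
        rw [hzL] at h1
        have := mul_le_mul_of_nonpos_left (hlo i) h0.le
        linarith
  intro y hy
  have h1 : K ⊆ {y : Eu d | ⟪v', y - o⟫_ℝ ≤ 1} := by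
    rw [← closure_convexHull_extremePoints hKc hK]
    exact closure_minimal (convexHull_min hsub hcv) hcl
  exact h1 hy

/-- coordinates for functionals -/
theorem exists_equiv {d k m : ℕ} (hkm : k + m = d) (u : Fin k → Eu d) (w : Fin m → Eu d)
    (hspan : ∀ x : Eu d, (∀ i, ⟪x, u i⟫_ℝ = 0) → (∀ j, ⟪x, w j⟫_ℝ = 0) → x = 0) :
    ∃ Φ : Eu d ≃L[ℝ] (Fin k → ℝ) × Eu m,
      (∀ v i, (Φ v).1 i = ⟪v, u i⟫_ℝ) ∧ (∀ v j, (Φ v).2 j = ⟪v, w j⟫_ℝ) := by
  let φ : Eu d →ₗ[ℝ] (Fin k → ℝ) × Eu m :=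
    { toFun := fun x => (fun i => ⟪x, u i⟫_ℝ, WithLp.toLp 2 fun j => ⟪x, w j⟫_ℝ)
      map_add' := fun x y => by
        ext i <;> simp [inner_add_left]
      map_smul' := fun a x => by
        ext i <;> simp [real_inner_smul_left] }
  have hinj : Function.Injective φ := by
    rw [← LinearMap.ker_eq_bot, LinearMap.ker_eq_bot']
    intro x hx
    have h1 : (φ x).1 = 0 := by rw [hx]; rfl
    have h2 : (φ x).2 = 0 := by rw [hx]; rfl
    refine hspan x (fun i => congrFun h1 i) (fun j => ?_)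
    have h3 : (φ x).2 j = 0 := by rw [h2]; rfl
    exact h3
  let e : Eu d ≃ₗ[ℝ] (Fin k → ℝ) × Eu m := LinearEquiv.ofInjectiveOfFinrankEq φ hinj (by
    rw [finrank_prod]
    simp [hkm])
  exact ⟨e.toContinuousLinearEquiv, fun v i => rfl, fun v j => rfl⟩

/-- The polar body is covered by `2 ^ k * N` translates of its interior. -/
theorem cov_pol {d k m : ℕ} (hkm : k + m = d) {K : Set (Eu d)} (hK : Convex ℝ K)
    (hKc : IsCompact K) {o : Eu d} (ho : o ∈ interior K) (u : Fin k → Eu d)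
    (hu : LinearIndependent ℝ u) (W : Submodule ℝ (Eu d))
    (hW : IsCompl (Submodule.span ℝ (Set.range u)) W) (hext : ExtIn K o u W) {N : ℕ}
    (hN : ∀ C : Set (Eu m), Convex ℝ C → IsCompact C → (interior C).Nonempty →
      ∃ T : Finset (Eu m), T.card ≤ N ∧ C ⊆ ⋃ t ∈ T, (fun x => t + x) '' interior C) :
    ∃ T : Finset (Eu d), T.card ≤ 2 ^ k * N ∧
      Pol K o ⊆ ⋃ t ∈ T, (fun x => t + x) '' interior (Pol K o) := by
  classical
  have hfin : finrank ℝ (Submodule.span ℝ (Set.range u)) = k := by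
    rw [finrank_span_eq_card hu, Fintype.card_fin]
  have hWm : finrank ℝ W = m := by
    have := Submodule.finrank_add_eq_of_isCompl hW
    rw [hfin, finrank_euclideanSpace, Fintype.card_fin] at this
    omega
  let bW : Basis (Fin m) ℝ W := (finBasis ℝ W).reindex (finCongr hWm)
  let w : Fin m → Eu d := fun j => (bW j : Eu d)
  have hwspan : ∀ y ∈ W, y ∈ Submodule.span ℝ (Set.range w) := by
    intro y hy
    have h1 := bW.mem_span (⟨y, hy⟩ : W)
    have h2 : (W.subtype (⟨y, hy⟩ : W)) ∈ Submodule.map W.subtype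
        (Submodule.span ℝ (Set.range bW)) := Submodule.mem_map_of_mem h1
    rw [Submodule.map_span, ← Set.range_comp] at h2
    exact h2
  have hzero : ∀ (s : Set (Eu d)) (x y : Eu d), (∀ z ∈ s, ⟪x, z⟫_ℝ = ⟪y, z⟫_ℝ) →
      ∀ z ∈ Submodule.span ℝ s, ⟪x, z⟫_ℝ = ⟪y, z⟫_ℝ := by
    intro s x y hs z hz
    induction hz using Submodule.span_induction with
    | mem z hz => exact hs z hz
    | zero => rw [inner_zero_right, inner_zero_right]
    | add a b _ _ ha hb => rw [inner_add_right, inner_add_right, ha, hb]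
    | smul c a _ ha => rw [real_inner_smul_right, real_inner_smul_right, ha]
  obtain ⟨Φ, hΦ1, hΦ2⟩ := exists_equiv hkm u w (by
    intro x h1 h2
    have h3 : x ∈ Submodule.span ℝ (Set.range u) ⊔ W := by
      rw [hW.sup_eq_top]; trivial
    obtain ⟨a, ha, b, hb, rfl⟩ := Submodule.mem_sup.1 h3
    have h4 : ⟪a + b, a⟫_ℝ = ⟪(0 : Eu d), a⟫_ℝ := hzero _ _ _ (by
      rintro z ⟨i, rfl⟩
      rw [h1 i, inner_zero_left]) a ha
    have h5 : ⟪a + b, b⟫_ℝ = ⟪(0 : Eu d), b⟫_ℝ := hzero _ _ _ (by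
      rintro z ⟨j, rfl⟩
      rw [h2 j, inner_zero_left]) b (hwspan b hb)
    rw [inner_zero_left] at h4 h5
    have h6 : ⟪a + b, a + b⟫_ℝ = 0 := by rw [inner_add_right, h4, h5, add_zero]
    exact inner_self_eq_zero.1 h6)
  obtain ⟨L, hL1, hL2⟩ := exists_low hKc ho u
  set P := Pol K o with hP
  -- the affine homeomorphism
  set Ψ : (Fin k → ℝ) × Eu m → Eu d := fun p => Φ.symm (p + (L, 0)) with hΨ
  have hΨ1 : ∀ p i, ⟪Ψ p, u i⟫_ℝ = p.1 i + L i := by
    intro p i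
    rw [← hΦ1, hΨ]
    simp
  have hΨ2 : ∀ p j, ⟪Ψ p, w j⟫_ℝ = p.2 j := by
    intro p j
    rw [← hΦ2, hΨ]
    simp
  let H : (Fin k → ℝ) × Eu m ≃ₜ Eu d :=
    (Homeomorph.addRight ((L, 0) : (Fin k → ℝ) × Eu m)).trans Φ.symm.toHomeomorph
  have hH : ∀ p, H p = Ψ p := fun p => rfl
  set Q : Set ((Fin k → ℝ) × Eu m) := H ⁻¹' P with hQ
  have hQi : interior Q = H ⁻¹' interior P := (H.preimage_interior P).symm
  have hQv : Convex ℝ Q := by
    have h1 : Convex ℝ P := Pol.convex K o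
    intro a ha b hb p q hp hq hpq
    show H (p • a + q • b) ∈ P
    have e : H (p • a + q • b) = p • H a + q • H b := by
      rw [hH, hH, hH]
      simp only [hΨ]
      rw [← map_smul, ← map_smul, ← map_add]
      congr 1
      rw [smul_add, smul_add, add_add_add_comm, ← add_smul, hpq, one_smul]
    rw [e]
    exact h1 ha hb hp hq hpq
  have hQc : IsCompact Q := by
    have : IsCompact P := Pol.isCompact ho
    rw [hQ]
    exact H.isCompact_preimage.2 this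
  have hQne : (interior Q).Nonempty := by
    rw [hQi]
    exact ⟨H.symm 0, by
      show H (H.symm 0) ∈ interior P
      rw [H.apply_symm_apply]
      exact Pol.zero_mem_interior hKc⟩
  have hpos : ∀ p ∈ Q, ∀ i, 0 ≤ p.1 i := by
    intro p hp i
    have h1 := hL1 _ hp i
    rw [hH, hΨ1] at h1
    linarith
  have hmono : ∀ p ∈ Q, ∀ x' : Fin k → ℝ, (∀ i, 0 ≤ x' i) → (∀ i, x' i ≤ p.1 i) →
      (x', p.2) ∈ Q := by
    intro p hp x' h0 h1
    show H (x', p.2) ∈ P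
    rw [hH]
    refine pol_mono hK hKc u W hext hL2 (v := Ψ p) hp ?_ (fun i => ?_) (fun i => ?_)
    · intro y hy
      refine hzero _ _ _ ?_ y (hwspan y hy)
      rintro z ⟨j, rfl⟩
      rw [hΨ2, hΨ2]
    · rw [hΨ1]
      have := h0 i
      simp only
      linarith
    · rw [hΨ1, hΨ1]
      have := h1 i
      simp only
      linarith
  -- the section
  set Q₀ : Set (Eu m) := {y | ((0 : Fin k → ℝ), y) ∈ Q} with hQ₀
  have hQ₀v : Convex ℝ Q₀ := by
    intro a ha b hb p q hp hq hpq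
    have := hQv (x := ((0 : Fin k → ℝ), a)) ha (y := ((0 : Fin k → ℝ), b)) hb hp hq hpq
    show ((0 : Fin k → ℝ), p • a + q • b) ∈ Q
    rw [Prod.smul_mk, Prod.smul_mk, Prod.mk_add_mk, smul_zero, smul_zero, add_zero] at this
    exact this
  have hQ₀c : IsCompact Q₀ := by
    have hcl : IsClosed Q₀ := hQc.isClosed.preimage (by fun_prop : Continuous fun y : Eu m =>
      ((0 : Fin k → ℝ), y))
    have himg : IsCompact (Prod.snd '' Q) := hQc.image continuous_snd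
    exact himg.of_isClosed_subset hcl fun y hy => ⟨_, hy, rfl⟩
  have hQ₀i : (interior Q₀).Nonempty := by
    obtain ⟨⟨a, b⟩, hab⟩ := hQne
    refine ⟨b, ?_⟩
    have h1 : Prod.snd '' Q ⊆ Q₀ := by
      rintro y ⟨p, hp, rfl⟩
      exact hmono p hp 0 (fun i => le_rfl) (hpos p hp)
    have h2 : Prod.snd '' interior Q ⊆ interior Q₀ :=
      interior_maximal ((Set.image_mono interior_subset).trans h1)
        (isOpenMap_snd _ isOpen_interior)
    exact h2 ⟨_, hab, rfl⟩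
  obtain ⟨T, hT, hcov⟩ := Pool.Agent.R753.Mono.fib hQv hQc hQne hpos hmono (hN Q₀ hQ₀v hQ₀c hQ₀i)
  refine ⟨T.image fun t => Φ.symm t, Finset.card_image_le.trans hT, ?_⟩
  intro v hv
  have h1 : H.symm v ∈ Q := by
    show H (H.symm v) ∈ P
    rw [H.apply_symm_apply]
    exact hv
  obtain ⟨t, ht, q, hq, hqe⟩ := Set.mem_iUnion₂.1 (hcov h1)
  refine Set.mem_iUnion₂.2 ⟨Φ.symm t, Finset.mem_image_of_mem _ ht, H q, ?_, ?_⟩
  · rw [hQi] at hq
    exact hq
  · have h2 : H (H.symm v) = H (t + q) := by rw [← hqe]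
    rw [H.apply_symm_apply, hH] at h2
    simp only [hΨ] at h2
    show Φ.symm t + H q = v
    rw [h2, hH]
    simp only [hΨ]
    rw [← map_add, add_assoc]

end Pool.Agent.R166.Spike
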